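import Mathlib
import Pool.Agent.Lib.helper4.Ladder2

set_option autoImplicit false

namespace Pool.Agent.Results.MP_1d7995_gt.NoSuitable

open Set Filter Topology
open Pool.Agent.Lib.helper4.Ladder2

/-- `S` is a suitable set for the topological group `G`: `S` is discrete, `S ∪ {1}` is closed,
and the subgroup generated by `S` is dense. -/
def Suitable {G : Type} [Group G] [TopologicalSpace G] (S : Set G) : Prop :=
  IsDiscrete S ∧ IsClosed (insert 1 S) ∧ Dense (Subgroup.closure S : Set G)

/-- `X` has an `ω^ω`-base: every point has a neighbourhood base `U α`, `α : ℕ → ℕ`, with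
`U β ⊆ U α` whenever `α ≤ β` pointwise. -/
def HasOmegaBase (X : Type) [TopologicalSpace X] : Prop :=
  ∀ x : X, ∃ U : (ℕ → ℕ) → Set X, (𝓝 x).HasBasis (fun _ => True) U ∧
    ∀ α β, (∀ n, α n ≤ β n) → U β ⊆ U α

theorem result : ∃ (G : Type) (_ : CommGroup G) (_ : TopologicalSpace G),
    IsTopologicalGroup G ∧ T35Space G ∧ HasOmegaBase G ∧ ¬ ∃ S : Set G, Suitable S := by
  obtain ⟨K, _, _, _, ψ, p1, p2⟩ := exists_K
  let _ : TopologicalSpace (G K) := Preorder.topology _
  have : OrderTopology (G K) := ⟨rfl⟩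
  refine ⟨Multiplicative (G K), inferInstance, inferInstance, inferInstance,
    inferInstanceAs (T35Space (G K)), fun x => ?_, ?_⟩
  · refine ⟨fun g => {y | ∀ ξ < ψ g, ph y ξ = ph x ξ}, (basis (Om := K) x).to_hasBasis
      (fun α _ => ?_) fun g _ => ⟨ψ g, trivial, Subset.rfl⟩,
      fun α β h y hy ξ hξ => hy ξ (hξ.trans_le (p1 h))⟩
    obtain ⟨g, hg⟩ := p2 α
    exact ⟨g, trivial, fun y hy ξ hξ => hy ξ (hξ.trans hg)⟩
  · rintro ⟨S, h1, h2, h3⟩
    refine core (K := G K) ph ph_range basis 0 rfl S _ h1 h2 h3 fun d hd => ?_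
    induction hd using Subgroup.closure_induction with
    | mem x hx => exact AddSubgroup.subset_closure ⟨x, hx, rfl⟩
    | one => exact zero_mem _
    | mul x y _ _ hx hy => exact add_mem hx hy
    | inv x _ hx => exact neg_mem hx

end Pool.Agent.Results.MP_1d7995_gt.NoSuitable
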